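import Mathlib

/-!
# MP_d84bc5_an, Q1: `γ(ℓ₁ ⊕₂ ℝ) = γ*(ℓ₁ ⊕₂ ℝ) = 2/√3`
-/

namespace Pool.Agent.Results.MP_d84bc5_an.TwoOverSqrtThree

open scoped ENNReal

/-- distinct points of `D` have distance at least 2 -/
def Separated2 {X : Type*} [NormedAddCommGroup X] (D : Set X) : Prop :=
  ∀ x ∈ D, ∀ y ∈ D, x ≠ y → 2 ≤ ‖x - y‖

/-- every point is within `ρ` of a point of `D` -/
def RhoDense {X : Type*} [NormedAddCommGroup X] (ρ : ℝ) (D : Set X) : Prop :=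
  ∀ x : X, ∃ d ∈ D, ‖x - d‖ ≤ ρ

/-- the simultaneous packing and covering constant -/
noncomputable def gamma (X : Type*) [NormedAddCommGroup X] : ℝ :=
  sInf {ρ : ℝ | ∃ D : Set X, Separated2 D ∧ RhoDense ρ D}

/-- the lattice version: only additive subgroups -/
noncomputable def gammaStar (X : Type*) [NormedAddCommGroup X] : ℝ :=
  sInf {ρ : ℝ | ∃ D : AddSubgroup X, Separated2 (D : Set X) ∧ RhoDense ρ (D : Set X)}

/-- the real space `ℓ₁` -/
abbrev L1 : Type := lp (fun _ : ℕ => ℝ) 1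

/-- `X₁ = ℓ₁ ⊕₂ ℝ` -/
abbrev X1 : Type := WithLp 2 (L1 × ℝ)

/-! ### Norms -/

theorem norm_compl (f : L1) (n : ℕ) :
    ‖f - lp.single 1 n (f n)‖ = ‖f‖ - |f n| := by
  have h := lp.norm_compl_sum_single (p := 1) (E := fun _ : ℕ => ℝ) (by norm_num) f {n}
  simpa using h

theorem norm_add_single (z : L1) (n : ℕ) (c : ℝ) (hz : z n = 0) :
    ‖z + lp.single 1 n c‖ = ‖z‖ + |c| := by
  have h := norm_compl (z + lp.single 1 n c) n
  have h1 : (z + lp.single 1 n c : L1) n = c := by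
    simp [hz]
  rw [h1, add_sub_cancel_right] at h
  linarith

/-- `‖r e_n - y‖ ≥ r + ‖y‖ - 2 |y n|` -/
theorem norm_single_sub_ge (y : L1) (n : ℕ) (r : ℝ) :
    r + ‖y‖ - 2 * |y n| ≤ ‖lp.single 1 n r - y‖ := by
  have h1 := norm_compl y n
  have h2 : lp.single 1 n r - y = -(y - lp.single 1 n (y n)) + lp.single 1 n (r - y n) := by
    rw [lp.single_sub]
    abel
  rw [h2, norm_add_single, norm_neg, h1]
  · have := abs_sub_abs_le_abs_sub r (y n)
    have := le_abs_self r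
    linarith
  · simp

theorem exists_small (y : L1) {δ : ℝ} (hδ : 0 < δ) : ∃ n, |y n| < δ := by
  have h := (lp.memℓp y).summable (by norm_num : 0 < (1 : ℝ≥0∞).toReal)
  have h2 := h.tendsto_atTop_zero
  have h3 := (h2.eventually (gt_mem_nhds hδ)).exists
  obtain ⟨n, hn⟩ := h3
  exact ⟨n, by simpa using hn⟩

theorem nsq (x : X1) : ‖x‖ ^ 2 = ‖x.fst‖ ^ 2 + x.snd ^ 2 := by
  rw [WithLp.prod_norm_sq_eq_of_L2, Real.norm_eq_abs, sq_abs]

theorem le_norm_iff (x : X1) {a : ℝ} (ha : 0 ≤ a) :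
    a ≤ ‖x‖ ↔ a ^ 2 ≤ ‖x.fst‖ ^ 2 + x.snd ^ 2 := by
  rw [← nsq]
  exact (pow_le_pow_iff_left₀ ha (norm_nonneg x) two_ne_zero).symm

theorem norm_le_iff (x : X1) {a : ℝ} (ha : 0 ≤ a) :
    ‖x‖ ≤ a ↔ ‖x.fst‖ ^ 2 + x.snd ^ 2 ≤ a ^ 2 := by
  rw [← nsq]
  exact (pow_le_pow_iff_left₀ (norm_nonneg x) ha two_ne_zero).symm

/-! ### The lower bound -/

/-- the planar inequality -/
theorem plane (w v L κ c s ρ ρ' q1 q2 : ℝ) (hρ0 : 0 ≤ ρ) (hρ : ρ < ρ') (hρ' : ρ' ^ 2 < 4 / 3)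
    (hL : 4 ≤ L ^ 2) (hwv : L ^ 2 = w ^ 2 + v ^ 2) (hκ0 : 0 ≤ κ) (hκ : κ ^ 2 = ρ' ^ 2 - L ^ 2 / 4)
    (hcs : c ^ 2 + s ^ 2 = 1)
    (h1 : 4 ≤ q1 ^ 2 + q2 ^ 2) (h2 : 4 ≤ (q1 + w) ^ 2 + (q2 - v) ^ 2)
    (h3 : (q1 - (-w / 2 + κ * c)) ^ 2 + (q2 - (v / 2 + κ * s)) ^ 2 ≤ ρ ^ 2) : False := by
  set X := q1 + w / 2 with hX
  set Y := q2 - v / 2 with hY
  have e1 : q1 = X - w / 2 := by rw [hX]; ring
  have e2 : q2 = Y + v / 2 := by rw [hY]; ring
  rw [e1, e2] at h1 h2 h3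
  set S := X ^ 2 + Y ^ 2 with hS
  have hS1 : 4 - L ^ 2 / 4 ≤ S := by nlinarith
  have hρρ : ρ ^ 2 < ρ' ^ 2 := by nlinarith
  have h3' : S - 2 * κ * (X * c + Y * s) + κ ^ 2 ≤ ρ ^ 2 := by
    have : (X - w / 2 - (-w / 2 + κ * c)) ^ 2 + (Y + v / 2 - (v / 2 + κ * s)) ^ 2
        = S - 2 * κ * (X * c + Y * s) + κ ^ 2 * (c ^ 2 + s ^ 2) := by rw [hS]; ring
    rw [this, hcs] at h3
    linarith
  have hS0 : 0 ≤ S := by positivity
  set σ := √S with hσ
  have hσ0 : 0 ≤ σ := Real.sqrt_nonneg _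
  have hσ2 : σ ^ 2 = S := Real.sq_sqrt hS0
  have hm : X * c + Y * s ≤ σ := by
    apply Real.le_sqrt_of_sq_le
    have : S = (X * c + Y * s) ^ 2 + (X * s - Y * c) ^ 2 := by
      have : (X * c + Y * s) ^ 2 + (X * s - Y * c) ^ 2 = (X ^ 2 + Y ^ 2) * (c ^ 2 + s ^ 2) := by
        ring
      rw [this, hcs, hS]; ring
    rw [this]
    nlinarith [sq_nonneg (X * s - Y * c)]
  have h4 : (σ - κ) ^ 2 ≤ ρ' ^ 2 := by
    have : κ * (X * c + Y * s) ≤ κ * σ := mul_le_mul_of_nonneg_left hm hκ0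
    nlinarith
  have hρ'0 : 0 < ρ' := by linarith
  have h5 : σ ≤ κ + ρ' := by
    have := abs_le_of_sq_le_sq' h4 hρ'0.le
    linarith [this.2]
  have h6 : S ≤ (κ + ρ') ^ 2 := by
    rw [← hσ2]
    exact pow_le_pow_left₀ hσ0 h5 2
  have h7 : κ * ρ' < 2 / 3 := by
    have h8 : κ ^ 2 ≤ 1 / 3 := by nlinarith
    have h9 : (κ * ρ') ^ 2 < (2 / 3) ^ 2 := by
      rw [mul_pow]
      have : κ ^ 2 * ρ' ^ 2 ≤ 1 / 3 * ρ' ^ 2 := mul_le_mul_of_nonneg_right h8 (sq_nonneg _)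
      nlinarith
    exact lt_of_pow_lt_pow_left₀ 2 (by norm_num) h9
  nlinarith

theorem lower0 (D : Set X1) (h0 : (0 : X1) ∈ D) (hD : Separated2 D) (ρ : ℝ)
    (hρ : RhoDense ρ D) : 2 / √3 ≤ ρ := by
  by_contra hcon
  push Not at hcon
  have hρ0 : 0 ≤ ρ := by
    obtain ⟨d, _, hd⟩ := hρ 0
    exact (norm_nonneg _).trans hd
  obtain ⟨ρ', h1, h2⟩ := exists_between hcon
  have hρ'0 : 0 < ρ' := by linarith
  have h3 : ρ' ^ 2 < 4 / 3 := by
    have : ρ' ^ 2 < (2 / √3) ^ 2 := pow_lt_pow_left₀ h2 hρ'0.le two_ne_zero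
    rw [div_pow, Real.sq_sqrt (by norm_num)] at this
    linarith
  have hsq : ρ ^ 2 < ρ' ^ 2 := pow_lt_pow_left₀ h1 hρ0 two_ne_zero
  obtain ⟨d₁, hd₁, hc₁⟩ := hρ (WithLp.toLp 2 ((0 : L1), ρ'))
  set y₁ := d₁.fst with hy₁
  set v := d₁.snd with hv
  set w := ‖y₁‖ with hw
  have hw0 : 0 ≤ w := norm_nonneg _
  rw [norm_le_iff _ hρ0] at hc₁
  simp only [WithLp.sub_fst, WithLp.sub_snd, WithLp.toLp_fst, WithLp.toLp_snd, zero_sub,
    norm_neg] at hc₁
  rw [← hy₁, ← hv, ← hw] at hc₁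
  have hne : d₁ ≠ 0 := by
    intro h
    have e1 : w = 0 := by rw [hw, hy₁, h]; simp
    have e2 : v = 0 := by rw [hv, h]; simp
    rw [e1, e2] at hc₁
    nlinarith
  have hL4 : 4 ≤ w ^ 2 + v ^ 2 := by
    have := hD d₁ hd₁ 0 h0 hne
    rw [sub_zero, le_norm_iff _ (by norm_num)] at this
    rw [← hy₁, ← hv, ← hw] at this
    linarith
  have hLv : w ^ 2 + v ^ 2 < 2 * ρ' * v := by nlinarith
  have hv0 : 0 < v := by
    by_contra h
    push Not at h
    nlinarith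
  set L := √(w ^ 2 + v ^ 2) with hL
  have hL0 : 0 < L := Real.sqrt_pos.2 (by linarith)
  have hL2 : L ^ 2 = w ^ 2 + v ^ 2 := Real.sq_sqrt (by positivity)
  have hvL : v ≤ L := Real.le_sqrt_of_sq_le (by nlinarith [sq_nonneg w])
  have hLρ : L < 2 * ρ' := by
    have : L * L < 2 * ρ' * L := by
      have : 2 * ρ' * v ≤ 2 * ρ' * L := mul_le_mul_of_nonneg_left hvL (by linarith)
      nlinarith
    exact lt_of_mul_lt_mul_right this hL0.le
  set κ := √(ρ' ^ 2 - L ^ 2 / 4) with hκ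
  have hκ' : 0 < ρ' ^ 2 - L ^ 2 / 4 := by nlinarith
  have hκ0 : 0 ≤ κ := Real.sqrt_nonneg _
  have hκ2 : κ ^ 2 = ρ' ^ 2 - L ^ 2 / 4 := Real.sq_sqrt hκ'.le
  set c := v / L with hc
  set s := w / L with hs
  have hcL : c * L = v := by rw [hc]; field_simp
  have hsL : s * L = w := by rw [hs]; field_simp
  have hcs : c ^ 2 + s ^ 2 = 1 := by
    have : (c ^ 2 + s ^ 2) * L ^ 2 = L ^ 2 := by
      have : (c ^ 2 + s ^ 2) * L ^ 2 = (c * L) ^ 2 + (s * L) ^ 2 := by ring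
      rw [this, hcL, hsL, hL2]; ring
    have hLn : L ^ 2 ≠ 0 := by positivity
    field_simp at this
    linarith
  set r := -w / 2 + κ * c with hr
  set t := v / 2 + κ * s with ht
  have hr0 : 0 ≤ r := by
    have h5 : (w * L) ^ 2 ≤ (2 * κ * v) ^ 2 := by
      have e1 : (2 * κ * v) ^ 2 = 4 * κ ^ 2 * v ^ 2 := by ring
      rw [e1, hκ2]
      have e2 : 4 * (ρ' ^ 2 - L ^ 2 / 4) * v ^ 2 - (w * L) ^ 2
          = (2 * ρ' * v) ^ 2 - L ^ 2 * (w ^ 2 + v ^ 2) := by ring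
      have e3 : L ^ 2 * (w ^ 2 + v ^ 2) ≤ (2 * ρ' * v) ^ 2 := by
        rw [hL2]
        nlinarith
      linarith
    have h6 : w * L ≤ 2 * κ * v := by
      have : 0 ≤ 2 * κ * v := by positivity
      exact le_of_sq_le_sq h5 this
    have h7 : 0 ≤ r * (2 * L) := by
      have : r * (2 * L) = -(w * L) + 2 * κ * (c * L) := by rw [hr]; ring
      rw [this, hcL]
      linarith
    exact nonneg_of_mul_nonneg_left h7 (by positivity)
  have hZ0 : r ^ 2 + t ^ 2 = ρ' ^ 2 := by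
    have : r ^ 2 + t ^ 2 = (w ^ 2 + v ^ 2) / 4 + κ ^ 2 * (c ^ 2 + s ^ 2)
        + κ * (v * s - w * c) := by rw [hr, ht]; ring
    rw [this, hcs, ← hL2, hκ2, ← hcL, ← hsL]
    ring
  have hZ1 : (r + w) ^ 2 + (t - v) ^ 2 = ρ' ^ 2 := by
    have : (r + w) ^ 2 + (t - v) ^ 2 = (w ^ 2 + v ^ 2) / 4 + κ ^ 2 * (c ^ 2 + s ^ 2)
        + κ * (w * c - v * s) := by rw [hr, ht]; ring
    rw [this, hcs, ← hL2, hκ2, ← hcL, ← hsL]
    ring
  obtain ⟨δ, hδ0, hδ⟩ : ∃ δ : ℝ, 0 < δ ∧ 4 * δ * (r + w) < ρ' ^ 2 - ρ ^ 2 := by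
    refine ⟨(ρ' ^ 2 - ρ ^ 2) / (4 * (r + w) + 1), by
      have : 0 < 4 * (r + w) + 1 := by positivity
      exact div_pos (by linarith) this, ?_⟩
    have h8 : 0 < 4 * (r + w) + 1 := by positivity
    have h9 : 4 * ((ρ' ^ 2 - ρ ^ 2) / (4 * (r + w) + 1)) * (r + w)
        = (ρ' ^ 2 - ρ ^ 2) * (4 * (r + w) / (4 * (r + w) + 1)) := by field_simp
    rw [h9]
    have h10 : 4 * (r + w) / (4 * (r + w) + 1) < 1 := by
      rw [div_lt_one h8]; linarith
    have : 0 < ρ' ^ 2 - ρ ^ 2 := by linarith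
    nlinarith
  obtain ⟨n, hn⟩ := exists_small y₁ hδ0
  obtain ⟨d, hd, hcd⟩ := hρ (WithLp.toLp 2 ((lp.single 1 n r : L1), t))
  rw [norm_le_iff _ hρ0] at hcd
  simp only [WithLp.sub_fst, WithLp.sub_snd, WithLp.toLp_fst, WithLp.toLp_snd] at hcd
  have hsn : ‖(lp.single 1 n r : L1)‖ = r := by
    rw [lp.norm_single (by norm_num), Real.norm_eq_abs, abs_of_nonneg hr0]
  have hd0 : d ≠ 0 := by
    intro h
    rw [h] at hcd
    simp only [WithLp.zero_fst, WithLp.zero_snd, sub_zero] at hcd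
    rw [hsn, hZ0] at hcd
    linarith
  have hdd : d ≠ d₁ := by
    intro h
    rw [h, ← hy₁, ← hv] at hcd
    have h11 := norm_single_sub_ge y₁ n r
    rw [← hw] at h11
    have h12 : 0 ≤ r + w := by positivity
    by_cases h13 : 0 ≤ r + w - 2 * |y₁ n|
    · have h14 : (r + w - 2 * |y₁ n|) ^ 2 ≤ ‖lp.single 1 n r - y₁‖ ^ 2 :=
        pow_le_pow_left₀ h13 h11 2
      have h15 : |y₁ n| * (r + w) ≤ δ * (r + w) := mul_le_mul_of_nonneg_right hn.le h12
      have e4 : (r + w - 2 * |y₁ n|) ^ 2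
          = (r + w) ^ 2 - 4 * (|y₁ n| * (r + w)) + 4 * |y₁ n| ^ 2 := by ring
      have e5 : 0 ≤ |y₁ n| ^ 2 := sq_nonneg _
      linarith
    · push Not at h13
      have h14 : r + w ≤ 2 * δ := by linarith
      have h16 : (r + w) * (r + w) ≤ 2 * δ * (r + w) := mul_le_mul_of_nonneg_right h14 h12
      have h17 : 0 ≤ δ * (r + w) := by positivity
      have e5 : 0 ≤ ‖lp.single 1 n r - y₁‖ ^ 2 := sq_nonneg _
      linarith
  have hq1 := hD d hd 0 h0 hd0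
  rw [sub_zero, le_norm_iff _ (by norm_num)] at hq1
  have hq2 := hD d hd d₁ hd₁ hdd
  rw [le_norm_iff _ (by norm_num)] at hq2
  simp only [WithLp.sub_fst, WithLp.sub_snd] at hq2
  rw [← hy₁, ← hv] at hq2
  refine plane w v L κ c s ρ ρ' ‖d.fst‖ d.snd hρ0 h1 h3 (by rw [hL2]; exact hL4) hL2 hκ0 hκ2 hcs
    (by linarith) ?_ ?_
  · have h18 : ‖d.fst - y₁‖ ≤ ‖d.fst‖ + w := norm_sub_le _ _
    have h19 : ‖d.fst - y₁‖ ^ 2 ≤ (‖d.fst‖ + w) ^ 2 := pow_le_pow_left₀ (norm_nonneg _) h18 2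
    linarith
  · rw [← hr, ← ht]
    have h20 := abs_norm_sub_norm_le (lp.single 1 n r : L1) d.fst
    rw [hsn] at h20
    have h21 : (‖d.fst‖ - r) ^ 2 ≤ ‖lp.single 1 n r - d.fst‖ ^ 2 := by
      have : (‖d.fst‖ - r) ^ 2 = |r - ‖d.fst‖| ^ 2 := by rw [sq_abs]; ring
      rw [this]
      exact pow_le_pow_left₀ (abs_nonneg _) h20 2
    have e6 : (d.snd - t) ^ 2 = (t - d.snd) ^ 2 := by ring
    rw [e6]
    linarith

theorem lower (D : Set X1) (hD : Separated2 D) (ρ : ℝ) (hρ : RhoDense ρ D) : 2 / √3 ≤ ρ := by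
  obtain ⟨d₀, hd₀, _⟩ := hρ 0
  refine lower0 {x | x + d₀ ∈ D} (by simpa using hd₀) ?_ ρ ?_
  · intro x hx y hy hxy
    have := hD _ hx _ hy (by simpa using hxy)
    simpa using this
  · intro x
    obtain ⟨d, hd, h⟩ := hρ (x + d₀)
    refine ⟨d - d₀, by simpa using hd, ?_⟩
    have : x - (d - d₀) = x + d₀ - d := by abel
    rw [this]
    exact h

/-! ### The upper bound -/

theorem comb_apply (y z : L1) (k : ℝ) (n : ℕ) : (y + k • z : L1) n = y n + k * z n := rfl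

theorem add_app (y z : L1) (n : ℕ) : (y + z : L1) n = y n + z n := rfl

theorem fst_le (x : X1) : ‖x.fst‖ ≤ ‖x‖ := by
  rw [le_norm_iff _ (norm_nonneg _)]
  nlinarith [sq_nonneg x.snd]

/-- the subgroups used in the construction -/
structure Good (D : AddSubgroup X1) : Prop where
  int : ∀ d ∈ D, ∃ k : ℤ, d.snd = k
  sep : ∀ d ∈ D, d ≠ 0 → 2 ≤ ‖d‖
  supp : ∃ N : ℕ, ∀ d ∈ D, ∀ i, N ≤ i → d.fst i = 0
  two : WithLp.toLp 2 ((0 : L1), (2 : ℝ)) ∈ D

/-- finitely supported vectors -/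
def Fin' (z : L1) : Prop := ∃ N : ℕ, ∀ i, N ≤ i → z i = 0

/-- the point `(z, t)` is covered by the balls of radius `2/√3` around `D` -/
def Cov (D : AddSubgroup X1) (z : L1) (t : ℝ) : Prop :=
  ∃ d ∈ D, ‖z - d.fst‖ ^ 2 + (t - d.snd) ^ 2 ≤ 4 / 3

theorem Cov.mono {D D' : AddSubgroup X1} (h : D ≤ D') {z : L1} {t : ℝ} (hc : Cov D z t) :
    Cov D' z t := by
  obtain ⟨d, hd, h1⟩ := hc
  exact ⟨d, h hd, h1⟩

/-- shifting the last coordinate by an even integer -/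
theorem Good.shift {D : AddSubgroup X1} (hD : Good D) (d : X1) (hd : d ∈ D) (k : ℤ) :
    WithLp.toLp 2 (d.fst, d.snd + 2 * k) ∈ D := by
  have h := D.add_mem hd (D.zsmul_mem hD.two k)
  have e : d + k • WithLp.toLp 2 ((0 : L1), (2 : ℝ)) = WithLp.toLp 2 (d.fst, d.snd + 2 * k) := by
    rw [← WithLp.toLp_smul, Prod.smul_mk]
    have : d = WithLp.toLp 2 (d.fst, d.snd) := rfl
    conv_lhs => rw [this]
    rw [← WithLp.toLp_add, Prod.mk_add_mk]
    congr 2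
    · simp
    · simp [mul_comm]
  rwa [e] at h

/-- the covering is symmetric under reflection of the last coordinate in an integer -/
theorem Good.cov_reflect {D : AddSubgroup X1} (hD : Good D) (z : L1) (j : ℤ) (u : ℝ)
    (h : Cov D z (j + u)) : Cov D z (j - u) := by
  obtain ⟨d, hd, h1⟩ := h
  obtain ⟨k, hk⟩ := hD.int d hd
  refine ⟨_, hD.shift d hd (j - k), ?_⟩
  simp only [WithLp.toLp_fst, WithLp.toLp_snd]
  push_cast
  have : (j - u - (d.snd + 2 * ((j : ℝ) - k))) ^ 2 = ((j : ℝ) + u - d.snd) ^ 2 := by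
    rw [hk]; ring
  rw [this]
  exact h1

theorem Good.cov_shift {D : AddSubgroup X1} (hD : Good D) (z : L1) (t : ℝ) (k : ℤ)
    (h : Cov D z t) : Cov D z (t + 2 * k) := by
  obtain ⟨d, hd, h1⟩ := h
  refine ⟨_, hD.shift d hd k, ?_⟩
  simp only [WithLp.toLp_fst, WithLp.toLp_snd]
  have : (t + 2 * k - (d.snd + 2 * (k : ℝ))) ^ 2 = (t - d.snd) ^ 2 := by ring
  rw [this]
  exact h1

/-- it suffices to cover `(z, j + u)` for `0 ≤ u ≤ 1` -/
theorem Good.cov_all {D : AddSubgroup X1} (hD : Good D) (z : L1) (j : ℤ)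
    (h : ∀ u : ℝ, 0 ≤ u → u ≤ 1 → Cov D z (j + u)) (t : ℝ) : Cov D z t := by
  -- t = j + u + 2k with |u| ≤ 1
  set k : ℤ := round ((t - j) / 2) with hk
  set u : ℝ := t - j - 2 * k with hu
  have h1 : |(t - j) / 2 - k| ≤ 1 / 2 := abs_sub_round _
  have h2 : |u| ≤ 1 := by
    rw [abs_le] at h1 ⊢
    constructor <;> rw [hu] <;> linarith [h1.1, h1.2]
  have h3 : t = (j + u) + 2 * k := by rw [hu]; ring
  rw [h3]
  apply hD.cov_shift
  rcases le_total 0 u with h4 | h4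
  · exact h u h4 (le_trans (le_abs_self u) h2)
  · have := hD.cov_reflect z j (-u) (h (-u) (by linarith) (by
      have := neg_abs_le u
      linarith))
    simpa using this

/-- adding a generator `(z + r e_n, j)` with a fresh coordinate `n` -/
theorem Good.add {D : AddSubgroup X1} (hD : Good D) (z : L1) (hz : Fin' z) (r : ℝ) (hr : 1 ≤ r)
    (j : ℤ)
    (H1 : ∀ d ∈ D, 3 ≤ (‖z - d.fst‖ + r) ^ 2)
    (H2 : ∀ d ∈ D, (∃ k : ℤ, d.snd = j + 2 * k) → 2 ≤ ‖z - d.fst‖ + r) :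
    ∃ D' : AddSubgroup X1, D ≤ D' ∧ Good D' ∧
      ∃ d ∈ D', ‖z - d.fst‖ = r ∧ d.snd = j := by
  obtain ⟨N₁, hN₁⟩ := hD.supp
  obtain ⟨N₂, hN₂⟩ := hz
  set n := max N₁ N₂ with hn
  set g : X1 := WithLp.toLp 2 (z + lp.single 1 n r, (j : ℝ)) with hg
  have hgf : g.fst = z + lp.single 1 n r := rfl
  have hgs : g.snd = j := rfl
  refine ⟨D ⊔ AddSubgroup.zmultiples g, le_sup_left, ?_, ⟨g, ?_, ?_, hgs⟩⟩
  rotate_left
  · exact (le_sup_right : AddSubgroup.zmultiples g ≤ _) (AddSubgroup.mem_zmultiples g)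
  · rw [hgf]
    have : z - (z + lp.single 1 n r) = -lp.single 1 n r := by abel
    rw [this, norm_neg, lp.norm_single (by norm_num), Real.norm_eq_abs, abs_of_nonneg (by linarith)]
  have hmem : ∀ x ∈ D ⊔ AddSubgroup.zmultiples g, ∃ d ∈ D, ∃ k : ℤ, d + k • g = x := by
    intro x hx
    rw [AddSubgroup.mem_sup] at hx
    obtain ⟨d, hd, e, he, rfl⟩ := hx
    rw [AddSubgroup.mem_zmultiples_iff] at he
    obtain ⟨k, rfl⟩ := he
    exact ⟨d, hd, k, rfl⟩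
  have hfst : ∀ (d : X1) (k : ℤ), (d + k • g).fst = d.fst + (k : ℝ) • z + lp.single 1 n (k * r) := by
    intro d k
    rw [← Int.cast_smul_eq_zsmul ℝ k g, WithLp.add_fst, WithLp.smul_fst, hgf, smul_add,
      ← lp.single_smul, smul_eq_mul, add_assoc]
  have hsnd : ∀ (d : X1) (k : ℤ), (d + k • g).snd = d.snd + k * j := by
    intro d k
    rw [← Int.cast_smul_eq_zsmul ℝ k g, WithLp.add_snd, WithLp.smul_snd, hgs, smul_eq_mul]
  have hnorm : ∀ d ∈ D, ∀ k : ℤ, ‖(d + k • g).fst‖ = ‖d.fst + (k : ℝ) • z‖ + |(k : ℝ) * r| := by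
    intro d hd k
    rw [hfst, norm_add_single]
    have e1 : d.fst n = 0 := hN₁ d hd n (le_max_left _ _)
    have e2 : z n = 0 := hN₂ n (le_max_right _ _)
    rw [comb_apply, e1, e2]
    ring
  -- the case k = 1
  have hone : ∀ d ∈ D, 2 ≤ ‖d + (1 : ℤ) • g‖ := by
    intro d hd
    rw [le_norm_iff _ (by norm_num), hnorm d hd, hsnd]
    have e1 : ‖d.fst + ((1 : ℤ) : ℝ) • z‖ = ‖z - (-d).fst‖ := by
      rw [WithLp.neg_fst]
      congr 1
      simp [add_comm]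
    have e2 : |((1 : ℤ) : ℝ) * r| = r := by
      rw [Int.cast_one, one_mul, abs_of_nonneg (by linarith)]
    rw [e1, e2]
    have h1 := H1 (-d) (D.neg_mem hd)
    obtain ⟨k, hk⟩ := hD.int d hd
    rcases Int.even_or_odd (k + j) with he | ho
    · obtain ⟨m, hm⟩ := he
      have h2 := H2 (-d) (D.neg_mem hd) ⟨-m, by
        rw [WithLp.neg_snd, hk]
        push_cast
        have : (k : ℝ) + j = m + m := by exact_mod_cast hm
        linarith⟩
      nlinarith [sq_nonneg (d.snd + ((1 : ℤ) : ℝ) * j)]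
    · have h3 : (1 : ℝ) ≤ (d.snd + ((1 : ℤ) : ℝ) * j) ^ 2 := by
        rw [hk, Int.cast_one, one_mul]
        have h4 : k + j ≠ 0 := by
          intro h0
          rw [h0] at ho
          exact absurd ho (by decide)
        have h5 : (1 : ℤ) ≤ (k + j) ^ 2 := by
          have := sq_pos_of_ne_zero h4 |> Int.add_one_le_iff.2
          simpa using this
        exact_mod_cast h5
      linarith
  constructor
  · intro x hx
    obtain ⟨d, hd, k, rfl⟩ := hmem x hx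
    obtain ⟨m, hm⟩ := hD.int d hd
    refine ⟨m + k * j, ?_⟩
    rw [hsnd, hm]
    push_cast
    ring
  · intro x hx hx0
    obtain ⟨d, hd, k, rfl⟩ := hmem x hx
    rcases lt_trichotomy k 0 with hk | hk | hk
    · rcases eq_or_lt_of_le (Int.le_sub_one_of_lt hk) with h | h
      · have hk1 : k = -1 := by omega
        have := hone (-d) (D.neg_mem hd)
        rw [← norm_neg, neg_add, neg_neg, ← neg_zsmul] at this
        rwa [hk1]
      · have h1 : |(k : ℝ) * r| ≤ ‖(d + k • g).fst‖ := by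
          rw [hnorm d hd]
          linarith [norm_nonneg (d.fst + (k : ℝ) • z)]
        have h2 : (2 : ℝ) ≤ |(k : ℝ) * r| := by
          rw [abs_mul, abs_of_nonneg (by linarith : 0 ≤ r)]
          have : (2 : ℝ) ≤ |(k : ℝ)| := by
            have h3 : k ≤ -2 := by omega
            have h4 : (k : ℝ) ≤ -2 := by exact_mod_cast h3
            rw [abs_of_nonpos (by linarith)]
            linarith
          nlinarith
        exact (h2.trans h1).trans (fst_le _)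
    · subst hk
      simp only [zero_smul, add_zero] at hx0 ⊢
      exact hD.sep d hd hx0
    · rcases eq_or_lt_of_le (Int.add_one_le_of_lt hk) with h | h
      · have hk1 : k = 1 := by omega
        rw [hk1]
        exact hone d hd
      · have h1 : |(k : ℝ) * r| ≤ ‖(d + k • g).fst‖ := by
          rw [hnorm d hd]
          linarith [norm_nonneg (d.fst + (k : ℝ) • z)]
        have h2 : (2 : ℝ) ≤ |(k : ℝ) * r| := by
          rw [abs_mul, abs_of_nonneg (by linarith : 0 ≤ r)]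
          have : (2 : ℝ) ≤ |(k : ℝ)| := by
            have h3 : 2 ≤ k := by omega
            have h4 : (2 : ℝ) ≤ k := by exact_mod_cast h3
            rw [abs_of_nonneg (by linarith)]
            linarith
          nlinarith
        exact (h2.trans h1).trans (fst_le _)
  · refine ⟨n + 1, fun x hx i hi => ?_⟩
    obtain ⟨d, hd, k, rfl⟩ := hmem x hx
    rw [hfst]
    have e1 : d.fst i = 0 := hN₁ d hd i (by
      have := le_max_left N₁ N₂
      omega)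
    have e2 : z i = 0 := hN₂ i (by
      have := le_max_right N₁ N₂
      omega)
    have e3 : (lp.single 1 n ((k : ℝ) * r) : L1) i = 0 :=
      lp.single_apply_ne 1 n _ (by omega)
    rw [add_app, comb_apply, e1, e2, e3]
    ring
  · exact (le_sup_left : D ≤ _) hD.two


/-- cover the line over `z` once an opposite phase point is close -/
theorem Good.fill_phase {D : AddSubgroup X1} (hD : Good D) (z : L1) (hz : Fin' z) (j : ℤ)
    (h : ∃ d ∈ D, d.snd = j + 1 ∧ ‖z - d.fst‖ ^ 2 ≤ 13 / 12) :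
    ∃ D' : AddSubgroup X1, D ≤ D' ∧ Good D' ∧ ∀ t, Cov D' z t := by
  obtain ⟨d₀, hd₀, hs₀, hn₀⟩ := h
  have hup : ∀ u : ℝ, 1 / 2 ≤ u → u ≤ 1 → Cov D z (j + u) := by
    intro u h1 h2
    refine ⟨d₀, hd₀, ?_⟩
    rw [hs₀]
    nlinarith
  set U : Set ℝ := {u | 0 ≤ u ∧ u ≤ 1 / 2 ∧ ¬ Cov D z (j + u)} with hU
  rcases U.eq_empty_or_nonempty with hemp | hne
  · refine ⟨D, le_rfl, hD, hD.cov_all z j fun u h0 h1 => ?_⟩
    rcases le_total u (1 / 2) with h | h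
    · by_contra hc
      have : u ∈ U := ⟨h0, h, hc⟩
      rw [hemp] at this
      exact this
    · exact hup u h h1
  have hbdd : BddAbove U := ⟨1 / 2, fun u hu => hu.2.1⟩
  set τ := sSup U with hτ
  have hcl : τ ∈ closure U := csSup_mem_closure hne hbdd
  have hτ0 : 0 ≤ τ := by
    obtain ⟨u, hu⟩ := hne
    exact hu.1.trans (le_csSup hbdd hu)
  have hτ1 : τ ≤ 1 / 2 := csSup_le hne fun u hu => hu.2.1
  set r := √(4 / 3 - τ ^ 2) with hr
  have hr2 : r ^ 2 = 4 / 3 - τ ^ 2 := Real.sq_sqrt (by nlinarith)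
  have hr0 : 0 ≤ r := Real.sqrt_nonneg _
  have hr1 : 1 ≤ r := by
    by_contra hc
    push Not at hc
    nlinarith
  -- same phase
  have hsame : ∀ d ∈ D, (∃ k : ℤ, d.snd = j + 2 * k) → 4 / 3 - τ ^ 2 ≤ ‖z - d.fst‖ ^ 2 := by
    intro d hd ⟨k, hk⟩
    have hsub : U ⊆ {u | 4 / 3 - u ^ 2 ≤ ‖z - d.fst‖ ^ 2} := by
      intro u hu
      by_contra hc
      simp only [Set.mem_ofPred_eq, not_le] at hc
      refine hu.2.2 ⟨_, hD.shift d hd (-k), ?_⟩
      simp only [WithLp.toLp_fst, WithLp.toLp_snd]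
      rw [hk]
      push_cast
      have : ((j : ℝ) + u - (j + 2 * k + 2 * -k)) ^ 2 = u ^ 2 := by ring
      rw [this]
      linarith
    have hclosed : IsClosed {u : ℝ | 4 / 3 - u ^ 2 ≤ ‖z - d.fst‖ ^ 2} :=
      isClosed_le (by fun_prop) continuous_const
    exact hclosed.closure_subset_iff.2 hsub hcl
  have hopp : ∀ d ∈ D, (∃ k : ℤ, d.snd = j + 1 + 2 * k) →
      4 / 3 - (1 - τ) ^ 2 ≤ ‖z - d.fst‖ ^ 2 := by
    intro d hd ⟨k, hk⟩
    have hsub : U ⊆ {u | 4 / 3 - (1 - u) ^ 2 ≤ ‖z - d.fst‖ ^ 2} := by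
      intro u hu
      by_contra hc
      simp only [Set.mem_ofPred_eq, not_le] at hc
      refine hu.2.2 ⟨_, hD.shift d hd (-k), ?_⟩
      simp only [WithLp.toLp_fst, WithLp.toLp_snd]
      rw [hk]
      push_cast
      have : ((j : ℝ) + u - (j + 1 + 2 * k + 2 * -k)) ^ 2 = (1 - u) ^ 2 := by ring
      rw [this]
      linarith
    have hclosed : IsClosed {u : ℝ | 4 / 3 - (1 - u) ^ 2 ≤ ‖z - d.fst‖ ^ 2} :=
      isClosed_le (by fun_prop) continuous_const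
    exact hclosed.closure_subset_iff.2 hsub hcl
  have hsum : ∀ b : ℝ, 0 ≤ b → 4 / 3 - (1 - τ) ^ 2 ≤ b ^ 2 → 3 ≤ (b + r) ^ 2 := by
    intro b hb0 hb
    have h1 : (2 / 3 - τ * (1 - τ)) ^ 2 ≤ (b * r) ^ 2 := by
      rw [mul_pow, hr2]
      have h2 : (4 / 3 - (1 - τ) ^ 2) * (4 / 3 - τ ^ 2) ≤ b ^ 2 * (4 / 3 - τ ^ 2) :=
        mul_le_mul_of_nonneg_right hb (by nlinarith)
      have h3 : (4 / 3 - (1 - τ) ^ 2) * (4 / 3 - τ ^ 2)
          = (2 / 3 - τ * (1 - τ)) ^ 2 + 4 * (τ * (1 - τ)) := by ring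
      have h4 : 0 ≤ τ * (1 - τ) := mul_nonneg hτ0 (by linarith)
      linarith
    have h5 : 2 / 3 - τ * (1 - τ) ≤ b * r := by
      have := abs_le_of_sq_le_sq' h1 (mul_nonneg hb0 hr0)
      exact this.2
    nlinarith
  obtain ⟨D', hDD', hD', d', hd', hdn, hds⟩ := hD.add z hz r hr1 j (by
    intro d hd
    obtain ⟨m, hm⟩ := hD.int d hd
    have hn0 : 0 ≤ ‖z - d.fst‖ := norm_nonneg _
    rcases Int.even_or_odd (m - j) with he | ho
    · obtain ⟨k, hk⟩ := he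
      have h1 := hsame d hd ⟨k, by
        rw [hm]
        have : (m : ℝ) - j = k + k := by exact_mod_cast hk
        linarith⟩
      have h2 : r ≤ ‖z - d.fst‖ := by
        rw [← hr2] at h1
        exact le_of_sq_le_sq h1 hn0
      nlinarith
    · obtain ⟨k, hk⟩ := ho
      exact hsum _ hn0 (hopp d hd ⟨k, by
        rw [hm]
        have : (m : ℝ) - j = 2 * k + 1 := by exact_mod_cast hk
        linarith⟩)) (by
    intro d hd hk
    have h1 := hsame d hd hk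
    have h2 : r ≤ ‖z - d.fst‖ := by
      rw [← hr2] at h1
      exact le_of_sq_le_sq h1 (norm_nonneg _)
    linarith)
  refine ⟨D', hDD', hD', hD'.cov_all z j fun u h0 h1 => ?_⟩
  rcases le_total u τ with h | h
  · refine ⟨d', hd', ?_⟩
    rw [hdn, hds, hr2]
    nlinarith
  · rcases eq_or_lt_of_le h with h' | h'
    · refine ⟨d', hd', ?_⟩
      rw [hdn, hds, hr2, ← h']
      nlinarith
    rcases le_total u (1 / 2) with h2 | h2
    · apply Cov.mono hDD'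
      by_contra hc
      have : u ∈ U := ⟨h0, h2, hc⟩
      exact absurd (le_csSup hbdd this) (not_le.2 h')
    · exact Cov.mono hDD' (hup u h2 h1)

/-- cover the line over any finitely supported `z` -/
theorem Good.fill {D : AddSubgroup X1} (hD : Good D) (z : L1) (hz : Fin' z) :
    ∃ D' : AddSubgroup X1, D ≤ D' ∧ Good D' ∧ ∀ t, Cov D' z t := by
  by_cases h : ∃ d ∈ D, ‖z - d.fst‖ ^ 2 ≤ 13 / 12
  · obtain ⟨d, hd, h1⟩ := h
    obtain ⟨m, hm⟩ := hD.int d hd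
    exact hD.fill_phase z hz (m - 1) ⟨d, hd, by rw [hm]; push_cast; ring, h1⟩
  · push Not at h
    set r := √(13 / 12 : ℝ) with hr
    have hr2 : r ^ 2 = 13 / 12 := Real.sq_sqrt (by norm_num)
    have hr0 : 0 ≤ r := Real.sqrt_nonneg _
    have hr1 : 1 ≤ r := by
      by_contra hc
      push Not at hc
      nlinarith
    have hfar : ∀ d ∈ D, r ≤ ‖z - d.fst‖ := by
      intro d hd
      have := h d hd
      rw [← hr2] at this
      exact le_of_sq_le_sq this.le (norm_nonneg _)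
    obtain ⟨D', hDD', hD', d', hd', hdn, hds⟩ := hD.add z hz r hr1 0
      (fun d hd => by nlinarith [hfar d hd]) (fun d hd _ => by linarith [hfar d hd])
    obtain ⟨D'', h1, h2, h3⟩ := hD'.fill_phase z hz (-1) ⟨d', hd', by
      rw [hds]; push_cast; ring, by rw [hdn, hr2]⟩
    exact ⟨D'', hDD'.trans h1, h2, h3⟩

/-- the starting subgroup `ℤ (0, 2)` -/
theorem good_zero : Good (AddSubgroup.zmultiples (WithLp.toLp 2 ((0 : L1), (2 : ℝ)))) := by
  have hform : ∀ d ∈ AddSubgroup.zmultiples (WithLp.toLp 2 ((0 : L1), (2 : ℝ)) : X1),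
      ∃ k : ℤ, d.fst = 0 ∧ d.snd = 2 * k ∧ d = k • WithLp.toLp 2 ((0 : L1), (2 : ℝ)) := by
    intro d hd
    rw [AddSubgroup.mem_zmultiples_iff] at hd
    obtain ⟨k, rfl⟩ := hd
    refine ⟨k, ?_, ?_, rfl⟩
    · rw [← Int.cast_smul_eq_zsmul ℝ k, WithLp.smul_fst]
      simp
    · rw [← Int.cast_smul_eq_zsmul ℝ k, WithLp.smul_snd]
      simp [mul_comm]
  constructor
  · intro d hd
    obtain ⟨k, _, h, _⟩ := hform d hd
    exact ⟨2 * k, by rw [h]; push_cast; ring⟩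
  · intro d hd hd0
    obtain ⟨k, h1, h2, h3⟩ := hform d hd
    have hk : k ≠ 0 := by
      rintro rfl
      exact hd0 (by rw [h3]; simp)
    rw [le_norm_iff _ (by norm_num), h1, h2, norm_zero]
    have : (1 : ℤ) ≤ k ^ 2 := Int.add_one_le_iff.2 (sq_pos_of_ne_zero hk)
    have : (1 : ℝ) ≤ (k : ℝ) ^ 2 := by exact_mod_cast this
    nlinarith
  · refine ⟨0, fun d hd i _ => ?_⟩
    obtain ⟨k, h1, _⟩ := hform d hd
    rw [h1]
    rfl
  · exact AddSubgroup.mem_zmultiples _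

/-- countably many finitely supported vectors, dense in `ℓ₁` -/
theorem exists_seq : ∃ z : ℕ → L1, (∀ k, Fin' (z k)) ∧
    ∀ y : L1, ∀ ε : ℝ, 0 < ε → ∃ k, ‖y - z k‖ ≤ ε := by
  let F : (Σ N : ℕ, Fin N → ℚ) → L1 := fun q => ∑ i : Fin q.1, lp.single 1 (i : ℕ) ((q.2 i : ℚ) : ℝ)
  have : Nonempty (Σ N : ℕ, Fin N → ℚ) := ⟨⟨0, fun _ => 0⟩⟩
  obtain ⟨e, he⟩ := exists_surjective_nat (Σ N : ℕ, Fin N → ℚ)
  refine ⟨fun k => F (e k), fun k => ?_, fun y ε hε => ?_⟩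
  · refine ⟨(e k).1, fun i hi => ?_⟩
    simp only [F]
    rw [lp.coeFn_sum, Finset.sum_apply]
    refine Finset.sum_eq_zero fun j _ => ?_
    exact lp.single_apply_ne 1 _ _ (by have := j.2; omega)
  · have h1 := (lp.hasSum_single (p := 1) (by norm_num) y).tendsto_sum_nat
    rw [Metric.tendsto_atTop] at h1
    obtain ⟨N, hN⟩ := h1 (ε / 2) (by positivity)
    have hN' := hN N le_rfl
    have hq : ∀ i : Fin N, ∃ q : ℚ, |y i - q| ≤ ε / (2 * (N + 1)) := by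
      intro i
      have hpos : 0 < ε / (2 * ((N : ℝ) + 1)) := by positivity
      obtain ⟨q, hq1, hq2⟩ := exists_rat_btwn (show y i - ε / (2 * ((N : ℝ) + 1)) < y i by linarith)
      refine ⟨q, ?_⟩
      rw [abs_le]
      constructor <;> linarith
    choose q hq using hq
    obtain ⟨k, hk⟩ := he ⟨N, q⟩
    refine ⟨k, ?_⟩
    simp only [hk, F]
    have h2 : ‖(∑ i : Fin N, (lp.single 1 (i : ℕ) (y i) : L1))
        - ∑ i : Fin N, (lp.single 1 (i : ℕ) ((q i : ℚ) : ℝ) : L1)‖ ≤ ε / 2 := by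
      rw [← Finset.sum_sub_distrib]
      calc ‖∑ i : Fin N, ((lp.single 1 (i : ℕ) (y i) : L1) - lp.single 1 (i : ℕ) ((q i : ℚ) : ℝ))‖
          ≤ ∑ i : Fin N, ‖(lp.single 1 (i : ℕ) (y i) : L1) - lp.single 1 (i : ℕ) ((q i : ℚ) : ℝ)‖ :=
            norm_sum_le _ _
        _ ≤ ∑ _i : Fin N, ε / (2 * (N + 1)) := by
            refine Finset.sum_le_sum fun i _ => ?_
            rw [← lp.single_sub, lp.norm_single (by norm_num), Real.norm_eq_abs]
            exact hq i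
        _ = N * (ε / (2 * (N + 1))) := by simp
        _ ≤ ε / 2 := by
            have : (N : ℝ) * (ε / (2 * (N + 1))) = ε / 2 * (N / (N + 1)) := by
              field_simp
            rw [this]
            have h3 : (N : ℝ) / (N + 1) ≤ 1 := by
              rw [div_le_one (by positivity)]; linarith
            nlinarith
    rw [dist_eq_norm, Finset.sum_range] at hN'
    have h4 : y - (∑ i : Fin N, (lp.single 1 (i : ℕ) ((q i : ℚ) : ℝ) : L1))
        = -((∑ i : Fin N, (lp.single 1 (i : ℕ) (y i) : L1)) - y)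
          + ((∑ i : Fin N, (lp.single 1 (i : ℕ) (y i) : L1))
            - ∑ i : Fin N, (lp.single 1 (i : ℕ) ((q i : ℚ) : ℝ) : L1)) := by
      abel
    rw [h4]
    refine (norm_add_le _ _).trans ?_
    rw [norm_neg]
    linarith

theorem upper (ε : ℝ) (hε : 0 < ε) : ∃ D : AddSubgroup X1, Separated2 (D : Set X1) ∧
    RhoDense (2 / √3 + ε) (D : Set X1) := by
  obtain ⟨z, hz, hdense⟩ := exists_seq
  have key : ∀ (k : ℕ) (D : {D : AddSubgroup X1 // Good D}), ∃ D' : {D : AddSubgroup X1 // Good D},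
      D.1 ≤ D'.1 ∧ ∀ t, Cov D'.1 (z k) t := by
    intro k D
    obtain ⟨D', h1, h2, h3⟩ := D.2.fill (z k) (hz k)
    exact ⟨⟨D', h2⟩, h1, h3⟩
  choose F hF1 hF2 using key
  let E : ℕ → {D : AddSubgroup X1 // Good D} := fun n =>
    Nat.rec ⟨_, good_zero⟩ (fun k D => F k D) n
  have hE : ∀ k, E (k + 1) = F k (E k) := fun k => rfl
  have hmono : Monotone fun n => (E n).1 := by
    refine monotone_nat_of_le_succ fun n => ?_
    rw [hE]
    exact hF1 n (E n)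
  have hmem : ∀ x, x ∈ (⨆ n, (E n).1) ↔ ∃ n, x ∈ (E n).1 := by
    intro x
    exact AddSubgroup.mem_iSup_of_directed hmono.directed_le
  refine ⟨⨆ n, (E n).1, ?_, ?_⟩
  · intro x hx y hy hxy
    have h1 : x - y ∈ ⨆ n, (E n).1 := AddSubgroup.sub_mem _ hx hy
    rw [hmem] at h1
    obtain ⟨n, hn⟩ := h1
    exact (E n).2.sep _ hn (sub_ne_zero.2 hxy)
  · intro x
    obtain ⟨k, hk⟩ := hdense x.fst ε hε
    have hc := hF2 k (E k) x.snd
    rw [← hE] at hc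
    obtain ⟨d, hd, h⟩ := hc
    refine ⟨d, (hmem d).2 ⟨k + 1, hd⟩, ?_⟩
    have h1 : x - d = WithLp.toLp 2 (x.fst - z k, (0 : ℝ)) + WithLp.toLp 2 (z k - d.fst, x.snd - d.snd) := by
      rw [← WithLp.toLp_add, Prod.mk_add_mk]
      have : x - d = WithLp.toLp 2 (x.fst - d.fst, x.snd - d.snd) := rfl
      rw [this]
      congr 2
      · abel
      · ring
    rw [h1]
    refine (norm_add_le _ _).trans ?_
    have h2 : ‖(WithLp.toLp 2 (x.fst - z k, (0 : ℝ)) : X1)‖ ≤ ε := by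
      rw [norm_le_iff _ hε.le]
      simp only [WithLp.toLp_fst, WithLp.toLp_snd]
      have := pow_le_pow_left₀ (norm_nonneg _) hk 2
      nlinarith
    have h3 : ‖(WithLp.toLp 2 (z k - d.fst, x.snd - d.snd) : X1)‖ ≤ 2 / √3 := by
      rw [norm_le_iff _ (by positivity)]
      simp only [WithLp.toLp_fst, WithLp.toLp_snd]
      rw [div_pow, Real.sq_sqrt (by norm_num)]
      linarith
    linarith


theorem mem_star (ε : ℝ) (hε : 0 < ε) : 2 / √3 + ε ∈
    {ρ : ℝ | ∃ D : AddSubgroup X1, Separated2 (D : Set X1) ∧ RhoDense ρ (D : Set X1)} :=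
  upper ε hε

/-- **Theorem.** `γ(ℓ₁ ⊕₂ ℝ) = γ*(ℓ₁ ⊕₂ ℝ) = 2/√3`. -/
theorem result : gamma X1 = 2 / √3 ∧ gammaStar X1 = 2 / √3 := by
  have hb1 : 2 / √3 ∈ lowerBounds {ρ : ℝ | ∃ D : Set X1, Separated2 D ∧ RhoDense ρ D} := by
    rintro ρ ⟨D, h1, h2⟩
    exact lower D h1 ρ h2
  have hb2 : 2 / √3 ∈ lowerBounds
      {ρ : ℝ | ∃ D : AddSubgroup X1, Separated2 (D : Set X1) ∧ RhoDense ρ (D : Set X1)} := by
    rintro ρ ⟨D, h1, h2⟩
    exact lower D h1 ρ h2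
  have hm1 : ∀ ε : ℝ, 0 < ε → 2 / √3 + ε ∈
      {ρ : ℝ | ∃ D : Set X1, Separated2 D ∧ RhoDense ρ D} := by
    intro ε hε
    obtain ⟨D, h1, h2⟩ := upper ε hε
    exact ⟨D, h1, h2⟩
  constructor
  · refine le_antisymm ?_ (le_csInf ⟨_, hm1 1 one_pos⟩ fun ρ hρ => hb1 hρ)
    exact le_of_forall_pos_le_add fun ε hε => csInf_le ⟨_, hb1⟩ (hm1 ε hε)
  · refine le_antisymm ?_ (le_csInf ⟨_, mem_star 1 one_pos⟩ fun ρ hρ => hb2 hρ)
    exact le_of_forall_pos_le_add fun ε hε => csInf_le ⟨_, hb2⟩ (mem_star ε hε)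

end Pool.Agent.Results.MP_d84bc5_an.TwoOverSqrtThree
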